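import Pool.Agent.Work.MP_af588c_co.Dg.Dom

/-!
The former hand-in `TriangleBlowup` follows from the statement of `tri`.
-/

set_option autoImplicit false

open Finset Real

namespace Pool.Agent.Work.MP_af588c_co.Dg

open Pool.Agent.Work.MP_af588c_co.TB

theorem blowup_of_tri :
    ∃ C : ℝ, 0 < C ∧ ∀ (n t : ℕ) (p : ℝ), 1 ≤ t → 0 < p →
      ∀ (Γ : SimpleGraph (Fin n)) [DecidableRel Γ.Adj],
        ((Γ.cliqueFinset 3).card : ℝ) = p * (n : ℝ) ^ 3 → (Γ.cliqueFinset 3).Nonempty →
        ∀ (W : Type) [Fintype W] [DecidableEq W] (H : Set (Finset W)) (col : W → Fin 3),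
          (∀ e ∈ H, e.card = 3 ∧ e.image col = Finset.univ) →
          (∀ i, (Finset.univ.filter fun w => col w = i).card ≤ t) →
          p ^ (C * ((t : ℝ) ^ 2 + t * Real.log (1 / p))) * (n : ℝ) ^ Fintype.card W
            ≤ copies H (Γ.cliqueFinset 3) := by
  obtain ⟨C, hC, h⟩ := tri
  refine ⟨9 * C, by positivity, fun n t p ht hp Γ _ hc hE W _ _ H col hH hcol => ?_⟩
  lift H to Finset (Finset W) using H.toFinite
  have hW : Fintype.card W ≤ 3 * t := by
    rw [← card_univ, card_eq_sum_card_fiberwise (f := col) (t := univ) fun _ _ => mem_univ _,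
      Fin.sum_univ_three]
    have := hcol 0
    have := hcol 1
    have := hcol 2
    omega
  have hS : ∀ S : Set W, S.ncard ≤ 3 * t := fun S =>
    (Set.ncard_le_card S).trans (by rw [Nat.card_eq_fintype_card]; exact hW)
  have h3 : ∀ e ∈ Γ.cliqueFinset 3, e.card = 3 := fun e he =>
    (SimpleGraph.mem_cliqueFinset_iff.mp he).card_eq
  have hp1 := p_le_one h3 hE hc
  refine le_trans (mul_le_mul_of_nonneg_right (rpow_le_rpow_of_exponent_ge hp hp1 ?_)
    (by positivity)) (h n p hp Γ hc hE W H col hH (3 * t) (by omega)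
      fun S _ ⟨u, hu⟩ => ⟨u, hu, hS _⟩)
  have hl : 0 ≤ log (1 / p) := log_nonneg (by rw [le_div_iff₀ hp]; linarith)
  have hv : ({w | ∃ e ∈ H, w ∈ e}.ncard : ℝ) ≤ 3 * t := by exact_mod_cast hS _
  have h1 := mul_le_mul_of_nonneg_left hv
    (by positivity : 0 ≤ C * (((3 * t : ℕ) : ℝ) + log (1 / p)))
  have h2 : 0 ≤ C * (t * log (1 / p)) := by positivity
  push_cast at h1 ⊢
  linarith

end Pool.Agent.Work.MP_af588c_co.Dg
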