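import Mathlib

namespace Pool.Agent.Work.MP_af588c_co.Dg

/-- Two different vertices that lie in a common edge of `H`. -/
def Adj {W : Type} (H : Finset (Finset W)) (u w : W) : Prop :=
  u ≠ w ∧ ∃ e ∈ H, u ∈ e ∧ w ∈ e

/-- The shadow graph of `H` restricted to `A` is `d`-degenerate: every nonempty `S ⊆ A` has a
vertex with at most `d` shadow neighbours inside `S`. -/
def Degen {W : Type} (H : Finset (Finset W)) (A : Set W) (d : ℕ) : Prop :=
  ∀ S : Set W, S ⊆ A → S.Nonempty → ∃ u ∈ S, {w | w ∈ S ∧ Adj H u w}.ncard ≤ d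

/-- The complete 3-partite 3-graph with three parts of size `k`. -/
def complete (k : ℕ) : Set (Finset (Fin 3 × Fin k)) :=
  {e | ∃ a b c : Fin k, e = {(0, a), (1, b), (2, c)}}

end Pool.Agent.Work.MP_af588c_co.Dg
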