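import Pool.Agent.Work.MP_af588c_co.Dg.Main
import Pool.Agent.Work.MP_af588c_co.TB7

/-!
Domination by the complete 3-partite 3-graph with parts of size `2 d`.
-/

set_option autoImplicit false

open Finset Real

namespace Pool.Agent.Work.MP_af588c_co.Dg

open Pool.Agent.Lib.PFR Pool.Agent.Lib.PFR.FP Pool.Agent.Work.MP_af588c_co.TB

variable {W : Type} [Fintype W] [DecidableEq W] {n : ℕ}

open Classical in
theorem copies_complete (E : Finset (Finset (Fin n))) (k : ℕ) :
    copies (complete k) E = (univ.filter fun T : Fin 3 → Fin k → Fin n =>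
      ∀ j : Fin 3 → Fin k, (univ.image fun i => T i (j i)) ∈ E).card := by
  rw [copies, ← Fintype.card_subtype, ← Nat.card_eq_fintype_card]
  refine Nat.card_congr ((Equiv.curry _ _ _).subtypeEquiv fun φ => ⟨fun h j => ?_, ?_⟩)
  · have := h _ ⟨j 0, j 1, j 2, rfl⟩
    rw [image3]
    simpa using this
  · rintro h _ ⟨a, b, c, rfl⟩
    have := h ![a, b, c]
    rw [image3] at this
    simpa using this

theorem thmB (E : Finset (Finset (Fin n))) (h3 : ∀ e ∈ E, e.card = 3) (hE : E.Nonempty)
    (G : Finset (Finset W)) (col : W → Fin 3) (hG : ∀ e ∈ G, e.card = 3 ∧ e.image col = univ)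
    {d : ℕ} (hd : 1 ≤ d) (hdeg : Degen G Set.univ d) :
    ((copies (complete (2 * d)) E : ℝ) / (n : ℝ) ^ (6 * d)) ^
      (({w | ∃ e ∈ G, w ∈ e}.ncard : ℝ) / d) * (n : ℝ) ^ Fintype.card W ≤
      copies (G : Set (Finset W)) E := by
  classical
  obtain ⟨e0, he0⟩ := hE
  obtain ⟨x, y, z, -, -, -, rfl⟩ := card_eq_three.mp (h3 e0 he0)
  have hn : 0 < n := x.pos
  have : Nonempty (Fin n) := ⟨x⟩
  have hn' : (0 : ℝ) < n := by exact_mod_cast hn
  have hd' : (1 : ℝ) ≤ d := by exact_mod_cast hd
  rw [copies_complete]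
  set S := univ.filter fun T : Fin 3 → Fin (2 * d) → Fin n =>
    ∀ j : Fin 3 → Fin (2 * d), (univ.image fun i => T i (j i)) ∈ E with hS
  have hSne : S.Nonempty := ⟨fun i _ => ![x, y, z] i, mem_filter.mpr ⟨mem_univ _, fun j => by
    rw [image3]; exact he0⟩⟩
  have hS0 : (0 : ℝ) < S.card := by exact_mod_cast hSne.card_pos
  have tup : ∀ f : (Fin 3 → Fin (2 * d) → Fin n) → Fin (2 * d) → Fin n,
      (unif S hSne).ent f ≤ 2 * d * log n := by
    intro f
    have := ent_le_tuple (unif S hSne) f
    rw [Fintype.card_fin] at this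
    exact_mod_cast this
  have two : ∀ i c, (unif S hSne).ent (fun T => Function.update T i c) ≤ 4 * d * log n := by
    intro i c
    have h1 := (unif S hSne).subadd (fun T => T (i + 1)) (fun T => T (i + 2))
      (fun T => Function.update T i c) fun T T' a b => funext fun j => by
        have : j = i ∨ j = i + 1 ∨ j = i + 2 := by omega
        by_cases h : j = i
        · rw [h, Function.update_self, Function.update_self]
        · rw [Function.update_of_ne h, Function.update_of_ne h]
          rcases this with e | e | e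
          · exact absurd e h
          · rw [e, a]
          · rw [e, b]
    have h2 := tup fun T => T (i + 1)
    have h3 := tup fun T => T (i + 2)
    linarith
  set c : ℝ := (6 * d * log n - log S.card) / d with hc
  have hcd : d * c = 6 * d * log n - log S.card := mul_div_cancel₀ _ (by positivity)
  have hc0 : 0 ≤ c := by
    refine div_nonneg ?_ (by positivity)
    have h1 := (unif S hSne).subadd (fun T => T 0)
      (fun T => Function.update T 0 fun _ => x) (fun T => T) fun T T' a b => funext fun j => by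
        by_cases h : j = 0
        · rw [h, a]
        · have := congrFun b j
          rwa [Function.update_of_ne h, Function.update_of_ne h] at this
    have h2 := H_unif S hSne
    have h3 := tup fun T => T 0
    have h4 := two 0 fun _ => x
    rw [H] at h2
    linarith
  have h1 := core E G col hG (fun _ => False) (by omega) (unif S hSne)
    (fun T h => (mem_filter.mp (unif_supp h)).2)
    (fun w => log n - if ∃ e ∈ G, w ∈ e then c else 0) fun A hA => by
      obtain ⟨u, hu, h4⟩ := hdeg A (Set.subset_univ _) hA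
      refine ⟨u, hu, ?_⟩
      by_cases hi : ∃ e ∈ G, u ∈ e
      · refine Or.inr (Or.inr ⟨fun _ _ => not_false, ?_⟩)
        have h5 : ∑ w ∈ nb G A u, (log n - (log n - if ∃ e ∈ G, w ∈ e then c else 0)) =
            (nb G A u).card * c := by
          rw [← nsmul_eq_mul, ← sum_const]
          refine sum_congr rfl fun w hw => ?_
          obtain ⟨e, he, -, hw'⟩ := (mem_nb.mp hw).2.2
          rw [if_pos ⟨e, he, hw'⟩]
          ring
        rw [nb_card] at h4
        have h6 : ((nb G A u).card : ℝ) ≤ d := by exact_mod_cast h4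
        have h7 := mul_le_mul_of_nonneg_right h6 hc0
        have h8 := two (col u) fun _ => Classical.arbitrary _
        rw [h5, if_pos hi, H_unif]
        push_cast
        linarith
      · exact Or.inl ⟨hi, by rw [if_neg hi, sub_zero]⟩
  refine le_trans (le_of_eq ?_) h1
  have h2 : {w | ∃ e ∈ G, w ∈ e}.ncard = (univ.filter fun w => ∃ e ∈ G, w ∈ e).card := by
    rw [← Set.ncard_coe_finset]
    congr 1
    ext w
    simp
  rw [exp_eq (by positivity) hn, sum_sub_distrib, sum_const, card_univ, nsmul_eq_mul,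
    ← sum_filter, sum_const, nsmul_eq_mul, h2, log_div hS0.ne' (by positivity), log_pow, hc]
  congr 2
  push_cast
  ring

theorem tri : ∃ C : ℝ, 0 < C ∧ ∀ (n : ℕ) (p : ℝ), 0 < p →
    ∀ (Γ : SimpleGraph (Fin n)) [DecidableRel Γ.Adj],
      ((Γ.cliqueFinset 3).card : ℝ) = p * (n : ℝ) ^ 3 → (Γ.cliqueFinset 3).Nonempty →
      ∀ (W : Type) [Fintype W] [DecidableEq W] (G : Finset (Finset W)) (col : W → Fin 3),
        (∀ e ∈ G, e.card = 3 ∧ e.image col = univ) → ∀ d : ℕ, 1 ≤ d → Degen G Set.univ d →
        p ^ (C * ((d : ℝ) + log (1 / p)) * {w | ∃ e ∈ G, w ∈ e}.ncard) * (n : ℝ) ^ Fintype.card W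
          ≤ copies (G : Set (Finset W)) (Γ.cliqueFinset 3) := by
  obtain ⟨C, hC, h⟩ := joined
  refine ⟨4 * C, by positivity, fun n p hp Γ _ hc hE W _ _ G col hG d hd hdeg => ?_⟩
  have h3 : ∀ e ∈ Γ.cliqueFinset 3, e.card = 3 := fun e he =>
    (SimpleGraph.mem_cliqueFinset_iff.mp he).card_eq
  have hp1 := p_le_one h3 hE hc
  have hd' : (1 : ℝ) ≤ d := by exact_mod_cast hd
  have hn : (0 : ℝ) < n := by
    obtain ⟨e, he⟩ := hE
    obtain ⟨x, -⟩ := card_pos.mp (by rw [h3 e he]; norm_num : 0 < e.card)
    exact_mod_cast x.pos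
  have h1 := (h n (2 * d) p (by omega) hp).1 Γ hc hE (Fin 3 × Fin (2 * d)) (complete (2 * d))
    Prod.fst (by
      rintro _ ⟨a, b, c, rfl⟩
      refine ⟨card_eq_three.mpr ⟨_, _, _, by simp, by simp, by simp, rfl⟩, ?_⟩
      simp only [image_insert, image_singleton]
      decide)
    fun i => by
      refine (card_le_card_of_injOn Prod.snd (fun _ _ => mem_univ _) fun a ha b hb e =>
        Prod.ext (((mem_filter.mp ha).2).trans (mem_filter.mp hb).2.symm) e).trans ?_
      simp
  rw [Fintype.card_prod, Fintype.card_fin, Fintype.card_fin, show 3 * (2 * d) = 6 * d by ring,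
    ← le_div_iff₀ (by positivity)] at h1
  refine le_trans (mul_le_mul_of_nonneg_right ?_ (by positivity))
    (thmB _ h3 hE G col hG hd hdeg)
  refine le_trans ?_ (rpow_le_rpow (by positivity) h1 (by positivity))
  rw [← rpow_mul hp.le]
  refine rpow_le_rpow_of_exponent_ge hp hp1 ?_
  have hl : 0 ≤ log (1 / p) := log_nonneg (by rw [le_div_iff₀ hp]; linarith)
  have hv : (0 : ℝ) ≤ {w | ∃ e ∈ G, w ∈ e}.ncard := Nat.cast_nonneg _
  have e1 : C * (((2 * d : ℕ) : ℝ) ^ 2 + (2 * d : ℕ) * log (1 / p)) *
      (({w | ∃ e ∈ G, w ∈ e}.ncard : ℝ) / d) =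
      C * (4 * d + 2 * log (1 / p)) * {w | ∃ e ∈ G, w ∈ e}.ncard := by
    push_cast
    field_simp
    ring
  rw [e1]
  refine mul_le_mul_of_nonneg_right ?_ hv
  have := mul_nonneg hC.le hl
  linarith

end Pool.Agent.Work.MP_af588c_co.Dg
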