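import Pool.Agent.Lib.PFR.Constr
import Pool.Agent.Work.MP_af588c_co.Dg.Defs
import Pool.Agent.Work.MP_af588c_co.TBDefs

-- merged part: Pool.Agent.Work.MP_af588c_co.Dg.Grow
section
/-!
Building a random map vertex by vertex with entropy control.
-/

set_option autoImplicit false

open Finset Real

namespace Pool.Agent.Work.MP_af588c_co.Dg

open Pool.Agent.Lib.PFR Pool.Agent.Lib.PFR.FP

variable {Ω Ω0 U V S T : Type} [Fintype Ω] [Fintype Ω0] [Fintype V]

/-- The uniform law on a nonempty finite set. -/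
noncomputable def unif (s : Finset Ω) (hs : s.Nonempty) : FP Ω where
  p ω := ind (ω ∈ s) / s.card
  nonneg ω := div_nonneg (ind_nonneg _) (Nat.cast_nonneg _)
  sum_one := by
    classical
    have h : (s.card : ℝ) ≠ 0 := by exact_mod_cast hs.card_pos.ne'
    rw [← sum_div, div_eq_one_iff_eq h]
    have : ∀ ω, ind (ω ∈ s) = if ω ∈ s then (1 : ℝ) else 0 := fun ω => by
      by_cases h : ω ∈ s <;> simp [ind, h]
    simp [this]

theorem unif_supp {s : Finset Ω} {hs : s.Nonempty} {ω : Ω} (h : (unif s hs).p ω ≠ 0) : ω ∈ s := by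
  by_contra h1
  exact h (by simp [unif, ind_neg h1])

theorem H_unif (s : Finset Ω) (hs : s.Nonempty) : H (unif s hs) = log s.card := by
  rw [H, ent, ← (unif s hs).ex_const (log s.card)]
  refine ex_congr _ fun ω h => ?_
  rw [pv, pr_eq_self]
  simp [unif, ind_pos (unif_supp h)]

/-- A way to draw a new point with conditional entropy at least `g` and property `R`. -/
def Ker (P : FP Ω) (g : ℝ) (R : Ω → V → Prop) : Prop :=
  ∃ K : Ω → FP V, g ≤ P.ex (fun ω => H (K ω)) ∧
    ∀ ω v, P.p ω ≠ 0 → (K ω).p v ≠ 0 → R ω v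

theorem ker_unif [Nonempty V] (P : FP Ω) {g : ℝ} {R : Ω → V → Prop}
    (hg : g ≤ log (Fintype.card V)) (hR : ∀ ω v, P.p ω ≠ 0 → R ω v) : Ker P g R :=
  ⟨fun _ => unif univ univ_nonempty, by rw [ex_const, H_unif]; exact hg,
    fun ω v h _ => hR ω v h⟩

theorem ker_copy (P : FP Ω) (W : Ω → S) (A : Ω → V) {g : ℝ} {R : Ω → V → Prop}
    (hg : g ≤ P.ent (fun ω => (A ω, W ω)) - P.ent W)
    (hR : ∀ ω ω', P.p ω ≠ 0 → P.p ω' ≠ 0 → W ω' = W ω → R ω (A ω')) : Ker P g R := by
  refine ⟨fun ω => (P.fib W ω).map A, ?_, fun ω v h1 h2 => ?_⟩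
  · simp only [H_map]
    rw [ex_ent_fib]; exact hg
  · obtain ⟨ω', h3, rfl⟩ := map_supp _ _ h2
    obtain ⟨h4, h5⟩ := fib_supp h1 h3
    exact hR ω ω' h1 h4 h5

theorem ker_pigeon (P : FP Ω) (W : Ω → S) {k : ℕ} (hk : 0 < k) (A : Ω → Fin k → V) {g : ℝ}
    {R : Ω → V → Prop} (hg : k * g ≤ P.ent (fun ω => (A ω, W ω)) - P.ent W)
    (hR : ∀ j ω ω', P.p ω ≠ 0 → P.p ω' ≠ 0 → W ω' = W ω → R ω (A ω' j)) : Ker P g R := by
  classical
  set F : ℕ → ℝ := fun m => P.ent fun ω =>
    (W ω, fun i : Fin k => if i.val < m then some (A ω i) else none) with hF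
  have h0 : F 0 = P.ent W := P.ent_congr fun ω ω' => by simp
  have h1 : F k = P.ent fun ω => (A ω, W ω) := P.ent_congr fun ω ω' => by
    simp [funext_iff, and_comm]
  have h2 : ∑ j ∈ range k, (F (j + 1) - F j) = F k - F 0 := sum_range_sub F k
  obtain ⟨j, hj, h3⟩ : ∃ j ∈ range k, g ≤ F (j + 1) - F j := by
    refine exists_le_of_sum_le (nonempty_range_iff.mpr hk.ne') ?_
    rw [h2, h0, h1, sum_const, card_range, nsmul_eq_mul]
    exact hg
  have hj' : j < k := mem_range.mp hj
  refine ker_copy P (fun ω => (W ω, fun i : Fin k => if i.val < j then some (A ω i) else none))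
    (fun ω => A ω ⟨j, hj'⟩) (h3.trans (sub_le_sub_right ?_ _))
    fun ω ω' a b c => hR _ ω ω' a b (Prod.ext_iff.mp c).1
  refine P.ent_mono fun ω ω' h => ?_
  simp only [Prod.mk.injEq, funext_iff] at h ⊢
  refine ⟨h.2.1, fun i => ?_⟩
  by_cases hi : i.val < j
  · have := h.2.2 i
    rw [if_pos hi, if_pos hi] at this
    rw [if_pos (by omega), if_pos (by omega), this]
  · by_cases hi' : i.val < j + 1
    · have : i = ⟨j, hj'⟩ := Fin.ext (by simp only; omega)
      rw [if_pos hi', if_pos hi', this, h.1]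
    · rw [if_neg hi', if_neg hi']

theorem ent_le_card [Fintype S] (P : FP Ω) (f : Ω → S) : P.ent f ≤ log (Fintype.card S) :=
  P.ent_le_log f univ fun _ _ => mem_univ _

theorem ent_le_tuple (P : FP Ω) {k : ℕ} (f : Ω → Fin k → V) :
    P.ent f ≤ k * log (Fintype.card V) := by
  have := ent_le_card P f
  rwa [Fintype.card_fun, Fintype.card_fin, Nat.cast_pow, log_pow] at this

variable [Fintype U] [DecidableEq U]

/-- The restriction of a map to a finite set. -/
def res (τ : Finset U) (φ : U → V) : U → Option V := fun u => if u ∈ τ then some (φ u) else none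

omit [Fintype V] [Fintype U] in
theorem res_eq {τ : Finset U} {φ ψ : U → V} : res τ φ = res τ ψ ↔ ∀ u ∈ τ, φ u = ψ u := by
  simp only [funext_iff, res]
  refine forall_congr' fun u => ?_
  by_cases h : u ∈ τ <;> simp [h]

omit [Fintype U] in
theorem ent_res_le (P : FP Ω) (φ : Ω → U → V) (τ : Finset U) :
    P.ent (fun ω => res τ (φ ω)) ≤ τ.card * log (Fintype.card V) := by
  induction τ using Finset.induction_on with
  | empty =>
    rw [P.ent_const fun _ _ _ _ => res_eq.mpr fun u h => absurd h (notMem_empty u)]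
    simp
  | insert u τ hu ih =>
    have h1 := P.subadd (fun ω => res τ (φ ω)) (fun ω => φ ω u)
      (fun ω => res (insert u τ) (φ ω)) fun ω ω' a b => res_eq.mpr fun w hw => by
        rcases mem_insert.mp hw with rfl | hw
        · exact b
        · exact res_eq.mp a w hw
    have h2 := ent_le_card P fun ω => φ ω u
    rw [card_insert_of_notMem hu]
    push_cast
    linarith

/-- The invariant of the construction on the set `A` of vertices drawn so far. -/
structure Inv (P0 : FP Ω0) (g : U → ℝ) (Good : Finset U → Ω0 → (U → V) → Prop) (A : Finset U)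
    (P : FP (Ω0 × (U → V))) : Prop where
  fst : P.map Prod.fst = P0
  ent : ∀ τ ⊆ A, H P0 + ∑ u ∈ τ, g u ≤ P.ent fun ω => (ω.1, res τ ω.2)
  good : ∀ ω, P.p ω ≠ 0 → Good A ω.1 ω.2

theorem Inv.ent0 {P0 : FP Ω0} {g : U → ℝ} {Good : Finset U → Ω0 → (U → V) → Prop} {A : Finset U}
    {P : FP (Ω0 × (U → V))} (h : Inv P0 g Good A P) (f : Ω0 → T) :
    P.ent (fun ω => f ω.1) = P0.ent f := by
  rw [← h.fst, ent_map]

theorem Inv.supp0 {P0 : FP Ω0} {g : U → ℝ} {Good : Finset U → Ω0 → (U → V) → Prop}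
    {A : Finset U} {P : FP (Ω0 × (U → V))} (h : Inv P0 g Good A P) {ω : Ω0 × (U → V)}
    (hω : P.p ω ≠ 0) : P0.p ω.1 ≠ 0 := by
  rw [← h.fst]; exact map_p_ne _ _ hω

theorem Inv.entf {P0 : FP Ω0} {g : U → ℝ} {Good : Finset U → Ω0 → (U → V) → Prop} {A : Finset U}
    {P : FP (Ω0 × (U → V))} (h : Inv P0 g Good A P) (f : Ω0 → T) {τ : Finset U} (hτ : τ ⊆ A) :
    P0.ent f + ∑ u ∈ τ, g u ≤ P.ent fun ω => (f ω.1, res τ ω.2) := by
  have h1 := h.ent τ hτ
  have h2 := P.submod (fun ω => ω.1) (fun ω => (f ω.1, res τ ω.2)) (fun ω => f ω.1)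
    (fun ω => (ω.1, res τ ω.2)) (fun _ _ a => by rw [a]) (fun _ _ a => (Prod.ext_iff.mp a).1)
    fun _ _ a b => Prod.ext a (Prod.ext_iff.mp b).2
  have h3 := h.ent0 f
  have h4 := h.ent0 fun x => x
  rw [H] at h1
  linarith

theorem grow [Nonempty V] (P0 : FP Ω0) (g : U → ℝ) (Good : Finset U → Ω0 → (U → V) → Prop)
    (h0 : ∀ ω φ, P0.p ω ≠ 0 → Good ∅ ω φ)
    (hs : ∀ A : Finset U, A.Nonempty → ∃ u ∈ A, ∀ P, Inv P0 g Good (A.erase u) P →
      Ker P (g u) fun ω v => Good A ω.1 (Function.update ω.2 u v)) (A : Finset U) :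
    ∃ P, Inv P0 g Good A P := by
  classical
  induction A using Finset.strongInduction with
  | H A ih =>
    rcases A.eq_empty_or_nonempty with rfl | hA
    · obtain ⟨v⟩ := ‹Nonempty V›
      refine ⟨P0.map fun ω => (ω, fun _ => v), ?_, fun τ hτ => ?_, fun ω hω => ?_⟩
      · rw [FP.map_map, FP.map_id]
      · rw [subset_empty.mp hτ, sum_empty, add_zero, ent_map, H]
        exact P0.ent_mono fun _ _ h => (Prod.ext_iff.mp h).1
      · obtain ⟨ω', h1, rfl⟩ := map_supp _ _ hω
        exact h0 _ _ h1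
    obtain ⟨u, hu, h1⟩ := hs A hA
    obtain ⟨P, hP⟩ := ih (A.erase u) (erase_ssubset hu)
    obtain ⟨K, hK, hR⟩ := h1 P hP
    have hm : ∀ {X : Type} (f : Ω0 × (U → V) → X), (P.mix K).ent (fun z => f z.1) = P.ent f := by
      intro X f
      have : (P.mix K).map Prod.fst = P := ext_ex fun F => by simp only [ex_map, ex_mix, ex_const]
      rw [← ent_map _ Prod.fst f, this]
    refine ⟨(P.mix K).map fun z => (z.1.1, Function.update z.1.2 u z.2), ?_, fun τ hτ => ?_,
      fun ω hω => ?_⟩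
    · rw [FP.map_map, ← hP.fst]
      exact ext_ex fun F => by simp only [ex_map, ex_mix, ex_const]
    · rw [ent_map]
      have h2 := hP.ent (τ.erase u) (erase_subset_erase u hτ)
      rw [← hm] at h2
      by_cases hτu : u ∈ τ
      · have h3 := ent_mix P K fun z => z.2
        have h4 := (P.mix K).submod (fun z => z.1)
          (fun z => (z.1.1, res τ (Function.update z.1.2 u z.2)))
          (fun z => (z.1.1, res (τ.erase u) z.1.2)) (fun z => (z.1, z.2))
          (fun _ _ a => by rw [a])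
          (fun z z' a => by
            obtain ⟨a1, a2⟩ := Prod.ext_iff.mp a
            refine Prod.ext a1 (res_eq.mpr fun w hw => ?_)
            have := res_eq.mp a2 w (mem_of_mem_erase hw)
            rwa [Function.update_of_ne (ne_of_mem_erase hw),
              Function.update_of_ne (ne_of_mem_erase hw)] at this)
          fun z z' a b => by
            refine Prod.ext a ?_
            have := res_eq.mp (Prod.ext_iff.mp b).2 u hτu
            rwa [Function.update_self, Function.update_self] at this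
        have h5 := hm fun x => x
        rw [← add_sum_erase τ g hτu]
        simp only [H] at h2 h3 hK ⊢
        linarith
      · rw [erase_eq_of_notMem hτu] at h2
        refine h2.trans ((P.mix K).ent_mono fun z z' a => ?_)
        obtain ⟨a1, a2⟩ := Prod.ext_iff.mp a
        refine Prod.ext a1 (res_eq.mpr fun w hw => ?_)
        have hne : w ≠ u := fun e => hτu (e ▸ hw)
        have := res_eq.mp a2 w hw
        simp only at this
        rwa [Function.update_of_ne hne, Function.update_of_ne hne] at this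
    · obtain ⟨z, h2, rfl⟩ := map_supp _ _ hω
      exact hR z.1 z.2 (mix_supp h2).1 (mix_supp h2).2

/-- `k` conditionally independent copies. -/
theorem copies_ex [Nonempty V] (P0 : FP Ω0) (W : Ω0 → S) (A : Ω0 → V) (k : ℕ) {g : ℝ}
    (R : Ω0 → V → Prop) (hg : g ≤ P0.ent (fun ω => (A ω, W ω)) - P0.ent W)
    (hR : ∀ ω ω', P0.p ω ≠ 0 → P0.p ω' ≠ 0 → W ω' = W ω → R ω (A ω')) :
    ∃ P : FP (Ω0 × (Fin k → V)), P.map Prod.fst = P0 ∧
      (∀ (X : Type) (f : Ω0 → X), P0.ent f + k * g ≤ P.ent fun ω => (f ω.1, ω.2)) ∧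
      ∀ ω, P.p ω ≠ 0 → P0.p ω.1 ≠ 0 ∧ ∀ j, R ω.1 (ω.2 j) := by
  obtain ⟨P, hP⟩ := grow (V := V) P0 (fun _ : Fin k => g) (fun B ω φ => ∀ j ∈ B, R ω (φ j))
    (fun _ _ _ j hj => absurd hj (notMem_empty j))
    (fun B ⟨u, hu⟩ => ⟨u, hu, fun P hP => ker_copy P (fun ω => W ω.1) (fun ω => A ω.1)
      (by rw [hP.ent0 W, hP.ent0 fun ω => (A ω, W ω)]; exact hg)
      fun ω ω' a b c j hj => by
        by_cases e : j = u
        · rw [e, Function.update_self]
          exact hR _ _ (hP.supp0 a) (hP.supp0 b) c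
        · rw [Function.update_of_ne e]
          exact hP.good ω a j (mem_erase.mpr ⟨e, hj⟩)⟩) univ
  refine ⟨P, hP.fst, fun X f => ?_, fun ω h => ⟨hP.supp0 h, fun j => hP.good ω h j (mem_univ j)⟩⟩
  have h1 := hP.entf f (subset_refl _)
  rw [sum_const, card_univ, Fintype.card_fin, nsmul_eq_mul] at h1
  refine h1.trans (P.ent_mono fun ω ω' a => ?_)
  obtain ⟨a1, a2⟩ := Prod.ext_iff.mp a
  exact Prod.ext a1 (by simp only at a2 ⊢; rw [a2])

end Pool.Agent.Work.MP_af588c_co.Dg
end

-- merged part: Pool.Agent.Work.MP_af588c_co.Dg.Core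
section
/-!
Embedding a 3-partite 3-graph as a sequence of copies of apex vertices.
-/

set_option autoImplicit false

open Finset Real

namespace Pool.Agent.Work.MP_af588c_co.Dg

open Pool.Agent.Lib.PFR Pool.Agent.Lib.PFR.FP Pool.Agent.Work.MP_af588c_co.TB

variable {W : Type} [Fintype W] [DecidableEq W] {n k : ℕ}

open Classical in
/-- The shadow neighbours of `u` in `A` other than `u`. -/
noncomputable def nb (G : Finset (Finset W)) (A : Finset W) (u : W) : Finset W :=
  (A.erase u).filter (Adj G u)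

omit [Fintype W] in
theorem mem_nb {G : Finset (Finset W)} {A : Finset W} {u w : W} :
    w ∈ nb G A u ↔ w ∈ A ∧ Adj G u w := by
  classical
  simp only [nb, mem_filter, mem_erase]
  exact ⟨fun h => ⟨h.1.2, h.2⟩, fun h => ⟨⟨h.2.1.symm, h.1⟩, h.2⟩⟩

omit [Fintype W] [DecidableEq W] in
theorem Adj.symm {G : Finset (Finset W)} {u w : W} (h : Adj G u w) : Adj G w u :=
  ⟨h.1.symm, let ⟨e, a, b, c⟩ := h.2; ⟨e, a, c, b⟩⟩

/-- A triple made of apexes and of drawn vertices that has to be an edge. -/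
def Adm (G : Finset (Finset W)) (col : W → Fin 3) (last : Fin 3 → Prop) (A : Finset W)
    (s : Fin 3 → W ⊕ Fin k) : Prop :=
  ∀ i w, s i = Sum.inl w → w ∈ A ∧ col w = i ∧ (∃ e ∈ G, w ∈ e) ∧
    (∀ j w', s j = Sum.inl w' → j ≠ i → Adj G w w') ∧ (last i → ∀ j, ∃ w', s j = Sum.inl w')

/-- All such triples are edges. -/
def Good (E : Finset (Finset (Fin n))) (G : Finset (Finset W)) (col : W → Fin 3)
    (last : Fin 3 → Prop) (A : Finset W) (T : Fin 3 → Fin k → Fin n) (φ : W → Fin n) : Prop :=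
  ∀ s, Adm G col last A s → (univ.image fun i => Sum.elim φ (T i) (s i)) ∈ E

omit [Fintype W] in
theorem good_old {E : Finset (Finset (Fin n))} {G : Finset (Finset W)} {col : W → Fin 3}
    {last : Fin 3 → Prop} {A : Finset W} {u : W} {T : Fin 3 → Fin k → Fin n} {φ : W → Fin n}
    (h : Good E G col last (A.erase u) T φ) (v : Fin n) {s : Fin 3 → W ⊕ Fin k}
    (hs : Adm G col last A s) (hu : ∀ i, s i ≠ Sum.inl u) :
    (univ.image fun i => Sum.elim (Function.update φ u v) (T i) (s i)) ∈ E := by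
  have h1 := h s fun i w e =>
    ⟨mem_erase.mpr ⟨fun e' => hu i (e' ▸ e), (hs i w e).1⟩, (hs i w e).2⟩
  convert h1 using 2
  funext i
  rcases e : s i with w | j
  · exact Function.update_of_ne (fun e' => hu i (by rw [e, e'])) _ _
  · rfl

omit [Fintype W] in
theorem good_new {E : Finset (Finset (Fin n))} {G : Finset (Finset W)} {col : W → Fin 3}
    {last : Fin 3 → Prop} {A : Finset W} {u : W} {T T' : Fin 3 → Fin k → Fin n}
    {φ φ' : W → Fin n} (h : Good E G col last (A.erase u) T φ)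
    (h' : Good E G col last (A.erase u) T' φ') (j : Fin k)
    (hφ : res (nb G A u) φ' = res (nb G A u) φ)
    (hl : last (col u) ∧ (∀ i, last i → i = col u) ∨
      (∀ w ∈ A, ¬ last (col w)) ∧ ∀ i, i ≠ col u → T' i = T i) :
    Good E G col last A T (Function.update φ u (T' (col u) j)) := by
  intro s hs
  by_cases hu : ∀ i, s i ≠ Sum.inl u
  · exact good_old h _ hs hu
  push Not at hu
  obtain ⟨i0, hi0⟩ := hu
  obtain ⟨-, rfl, -, hadj, hlast⟩ := hs i0 u hi0
  have hne : ∀ i w, s i = Sum.inl w → i ≠ col u → w ≠ u := fun i w e hi =>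
    (hadj i w e hi).1.symm
  have h1 := h' (Function.update s (col u) (Sum.inr j)) fun i w e => by
    have hi : i ≠ col u := fun e' => by rw [e', Function.update_self] at e; cases e
    rw [Function.update_of_ne hi] at e
    obtain ⟨a1, a2, a3, a4, -⟩ := hs i w e
    refine ⟨mem_erase.mpr ⟨hne i w e hi, a1⟩, a2, a3, fun i' w' e' hi' => ?_, fun hl' => ?_⟩
    · have hi2 : i' ≠ col u := fun e'' => by rw [e'', Function.update_self] at e'; cases e'
      rw [Function.update_of_ne hi2] at e'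
      exact a4 i' w' e' hi'
    · rcases hl with hl | hl
      · exact absurd (hl.2 i hl') hi
      · exact absurd (a2 ▸ hl') (hl.1 w a1)
  convert h1 using 2
  funext i
  by_cases hi : i = col u
  · rw [hi, hi0, Function.update_self]
    exact Function.update_self _ _ _
  rw [Function.update_of_ne hi]
  rcases e : s i with w | j'
  · simp only [Sum.elim_inl]
    rw [Function.update_of_ne (hne i w e hi)]
    exact (res_eq.mp hφ w (mem_nb.mpr ⟨(hs i w e).1, hadj i w e hi⟩)).symm
  · simp only [Sum.elim_inr]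
    rcases hl with hl | hl
    · obtain ⟨w', e'⟩ := hlast hl.1 i
      rw [e] at e'; cases e'
    · rw [hl.2 i hi]

omit [Fintype W] in
theorem edge_eq {col : W → Fin 3} {e : Finset W} (h1 : e.card = 3) (h2 : e.image col = univ) :
    ∃ w : Fin 3 → W, (∀ i, w i ∈ e ∧ col (w i) = i) ∧ e = univ.image w := by
  have : ∀ i, ∃ w, w ∈ e ∧ col w = i := fun i => mem_image.mp (h2 ▸ mem_univ i)
  choose w hw using this
  refine ⟨w, hw, (eq_of_subset_of_card_le (fun x hx => ?_) ?_).symm⟩
  · obtain ⟨i, -, rfl⟩ := mem_image.mp hx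
    exact (hw i).1
  · rw [card_image_of_injective _ fun i j h => by rw [← (hw i).2, h, (hw j).2], h1]
    simp

theorem core [Nonempty (Fin n)] (E : Finset (Finset (Fin n))) (G : Finset (Finset W))
    (col : W → Fin 3) (hG : ∀ e ∈ G, e.card = 3 ∧ e.image col = univ) (last : Fin 3 → Prop)
    (hk : 0 < k) (P0 : FP (Fin 3 → Fin k → Fin n))
    (h0 : ∀ T, P0.p T ≠ 0 → ∀ j : Fin 3 → Fin k, (univ.image fun i => T i (j i)) ∈ E)
    (g : W → ℝ)
    (hs : ∀ A : Finset W, A.Nonempty → ∃ u ∈ A,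
      ((¬ ∃ e ∈ G, u ∈ e) ∧ g u ≤ log n) ∨
      (last (col u) ∧ (∀ i, last i → i = col u) ∧
        g u ≤ P0.ent (fun T => T (col u) ⟨0, hk⟩) - ∑ w ∈ nb G A u, (log n - g w)) ∨
      ((∀ w ∈ A, ¬ last (col w)) ∧
        k * g u ≤ H P0 - P0.ent (fun T => Function.update T (col u) fun _ => Classical.arbitrary _)
          - ∑ w ∈ nb G A u, (log n - g w))) :
    exp (∑ w, g w) ≤ copies (G : Set (Finset W)) E := by
  classical
  have hsub : ∀ A u, nb G A u ⊆ A.erase u := fun A u => filter_subset _ _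
  obtain ⟨P, hP⟩ := grow (V := Fin n) P0 g (Good E G col last)
    (fun T φ hT s hs => by
      have : ∀ i, ∃ j, s i = Sum.inr j := fun i => by
        rcases e : s i with w | j
        · exact absurd (hs i w e).1 (notMem_empty w)
        · exact ⟨j, rfl⟩
      choose j hj using this
      convert h0 T hT j using 2
      funext i
      rw [hj i]; rfl)
    (fun A hA => by
      obtain ⟨u, hu, h⟩ := hs A hA
      refine ⟨u, hu, fun P hP => ?_⟩
      have hr := ent_res_le P (fun ω => ω.2) (nb G A u)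
      rw [Fintype.card_fin] at hr
      rcases h with h | h | h
      · refine ker_unif P (by rw [Fintype.card_fin]; exact h.2) fun ω v hω s hs => ?_
        exact good_old (hP.good ω hω) v hs fun i e => h.1 (hs i u e).2.2.1
      · refine ker_copy P (fun ω => res (nb G A u) ω.2) (fun ω => ω.1 (col u) ⟨0, hk⟩) ?_
          fun ω ω' a b c => good_new (hP.good ω a) (hP.good ω' b) _ c (Or.inl ⟨h.1, h.2.1⟩)
        have h1 := hP.entf (fun T => T (col u) ⟨0, hk⟩) (hsub A u)
        have h2 := h.2.2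
        rw [sum_sub_distrib, sum_const, nsmul_eq_mul] at h2
        linarith
      · refine ker_pigeon P (fun ω => (Function.update ω.1 (col u) fun _ => Classical.arbitrary _,
          res (nb G A u) ω.2)) hk (fun ω => ω.1 (col u)) ?_
          fun j ω ω' a b c => good_new (hP.good ω a) (hP.good ω' b) j (Prod.ext_iff.mp c).2
            (Or.inr ⟨h.1, fun i hi => by
              have := congrFun (Prod.ext_iff.mp c).1 i
              simp only at this
              rwa [Function.update_of_ne hi, Function.update_of_ne hi] at this⟩)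
        have h1 := hP.ent _ (hsub A u)
        have h2 := h.2
        rw [sum_sub_distrib, sum_const, nsmul_eq_mul] at h2
        have h3 := P.ent_mono (g := fun ω => (ω.1, res (nb G A u) ω.2))
          (f := fun ω => (ω.1 (col u), Function.update ω.1 (col u) fun _ => Classical.arbitrary _,
            res (nb G A u) ω.2)) fun ω ω' a => by
            simp only [Prod.mk.injEq] at a ⊢
            refine ⟨funext fun i => ?_, a.2.2⟩
            by_cases hi : i = col u
            · rw [hi, a.1]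
            · have := congrFun a.2.1 i
              rwa [Function.update_of_ne hi, Function.update_of_ne hi] at this
        have h4 := P.subadd
          (fun ω => Function.update ω.1 (col u) fun _ => Classical.arbitrary (Fin n))
          (fun ω => res (nb G A u) ω.2)
          (fun ω => (Function.update ω.1 (col u) fun _ => Classical.arbitrary (Fin n),
            res (nb G A u) ω.2)) fun _ _ a b => Prod.ext a b
        have h5 := hP.ent0 fun T => Function.update T (col u) fun _ => Classical.arbitrary (Fin n)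
        linarith) univ
  have h1 := hP.entf (fun _ => ()) (subset_refl _)
  rw [P0.ent_const (f := fun _ => ()) fun _ _ _ _ => rfl, zero_add] at h1
  have h2 : P.ent (fun ω => ((), res univ ω.2)) ≤ P.ent fun ω => ω.2 :=
    P.ent_mono fun _ _ a => by rw [a]
  have hm : ∀ ω, P.p ω ≠ 0 → ω.2 ∈ univ.filter fun φ : W → Fin n => ∀ e ∈ G, e.image φ ∈ E := by
    intro ω hω
    refine mem_filter.mpr ⟨mem_univ _, fun e he => ?_⟩
    obtain ⟨w, hw, h3⟩ := edge_eq (hG e he).1 (hG e he).2
    have := hP.good ω hω (fun i => Sum.inl (w i)) fun i x e' => by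
      cases e'
      refine ⟨mem_univ _, (hw i).2, ⟨e, he, (hw i).1⟩, fun j x' e'' hj => ?_,
        fun _ j => ⟨_, rfl⟩⟩
      cases e''
      exact ⟨fun a => hj (by rw [← (hw j).2, ← a, (hw i).2]), e, he, (hw i).1, (hw j).1⟩
    rw [h3, image_image]
    exact this
  have h3 := P.ent_le_log (fun ω => ω.2) _ hm
  obtain ⟨ω, hω⟩ := P.exists_supp
  have h4 : (0 : ℝ) < (univ.filter fun φ : W → Fin n => ∀ e ∈ G, e.image φ ∈ E).card := by
    exact_mod_cast card_pos.mpr ⟨_, hm ω hω⟩
  have h5 : copies (G : Set (Finset W)) E =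
      (univ.filter fun φ : W → Fin n => ∀ e ∈ G, e.image φ ∈ E).card := by
    rw [copies, Nat.card_eq_fintype_card, Fintype.card_subtype]
    congr
  rw [h5, ← exp_log h4, exp_le_exp]
  linarith

end Pool.Agent.Work.MP_af588c_co.Dg
end

-- merged part: Pool.Agent.Work.MP_af588c_co.Dg.Main
section
/-!
The exponent `19 d m` and the exponent `54 e^(3/2)`.
-/

set_option autoImplicit false

open Finset Real

namespace Pool.Agent.Work.MP_af588c_co.Dg

open Pool.Agent.Lib.PFR Pool.Agent.Lib.PFR.FP Pool.Agent.Work.MP_af588c_co.TB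

variable {W : Type} [Fintype W] [DecidableEq W] {n : ℕ}

theorem image3 {α : Type} [DecidableEq α] (f : Fin 3 → α) : univ.image f = {f 0, f 1, f 2} := by
  ext x
  simp [Fin.exists_fin_succ, eq_comm]

theorem apex (E : Finset (Finset (Fin n))) (h3 : ∀ e ∈ E, e.card = 3) (hE : E.Nonempty)
    [Nonempty (Fin n)] {D : ℝ} (hD : 3 * log n - D ≤ log E.card) {k : ℕ} (hk : 0 < k) :
    0 ≤ D ∧ ∃ P0 : FP (Fin 3 → Fin k → Fin n),
      (∀ T, P0.p T ≠ 0 → ∀ j : Fin 3 → Fin k, (univ.image fun i => T i (j i)) ∈ E) ∧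
      (2 * k + 1) * log n - (k + 1) ^ 2 * D ≤ H P0 ∧
      log n - D ≤ P0.ent (fun T => T 2 ⟨0, hk⟩) ∧
      ∀ i c, i ≠ 2 → P0.ent (fun T => Function.update T i c) ≤ (k + 1) * log n := by
  classical
  set O : Finset (Fin n × Fin n × Fin n) :=
    univ.filter fun ω => ({ω.1, ω.2.1, ω.2.2} : Finset (Fin n)) ∈ E with hO
  have hOE : E.card ≤ O.card := by
    refine card_le_card_of_surjOn (fun ω => {ω.1, ω.2.1, ω.2.2}) fun e he => ?_
    obtain ⟨x, y, z, -, -, -, rfl⟩ := card_eq_three.mp (h3 e he)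
    exact ⟨(x, y, z), by simpa [hO] using he, rfl⟩
  have hOne : O.Nonempty := card_pos.mp (hE.card_pos.trans_le hOE)
  set Pa := unif O hOne with hPa
  have a0 : 3 * log n - D ≤ H Pa := by
    rw [H_unif]
    exact hD.trans (log_le_log (by exact_mod_cast hE.card_pos) (by exact_mod_cast hOE))
  have one : ∀ {Ω : Type} [Fintype Ω] (P : FP Ω) (f : Ω → Fin n), P.ent f ≤ log n := by
    intro Ω _ P f
    have := ent_le_card P f
    rwa [Fintype.card_fin] at this
  have tup : ∀ {Ω : Type} [Fintype Ω] (P : FP Ω) (f : Ω → Fin k → Fin n),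
      P.ent f ≤ k * log n := by
    intro Ω _ P f
    have := ent_le_tuple P f
    rwa [Fintype.card_fin] at this
  have a1 := Pa.subadd (fun ω => (ω.1, ω.2.2)) (fun ω => ω.2.1) (fun ω => ω)
    fun ω ω' a b => Prod.ext (Prod.ext_iff.mp a).1 (Prod.ext b (Prod.ext_iff.mp a).2)
  have a2 := Pa.subadd (fun ω => ω.1) (fun ω => ω.2.2) (fun ω => (ω.1, ω.2.2))
    fun ω ω' a b => Prod.ext a b
  have a3 := one Pa fun ω => ω.1
  have a4 := one Pa fun ω => ω.2.1
  have a5 := one Pa fun ω => ω.2.2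
  have a6 := Pa.ent_mono (f := fun ω => (ω.2.1, ω.1, ω.2.2)) (g := fun ω => ω) fun ω ω' a => by
    simp only [Prod.mk.injEq] at a
    exact Prod.ext a.2.1 (Prod.ext a.1 a.2.2)
  rw [H] at a0
  refine ⟨by linarith, ?_⟩
  obtain ⟨P1, b0, b1, b2⟩ := copies_ex Pa (fun ω => (ω.1, ω.2.2)) (fun ω => ω.2.1) k
    (g := log n - D) (fun ω v => ({ω.1, v, ω.2.2} : Finset (Fin n)) ∈ E) (by linarith)
    fun ω ω' _ h c => by
      have := (mem_filter.mp (unif_supp h)).2
      simp only [Prod.mk.injEq] at c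
      rwa [c.1, c.2] at this
  have b3 := b1 _ fun ω => (ω.1, ω.2.2)
  have b4 := b1 _ fun ω => ω.2.2
  have b5 := P1.subadd (fun ω => ω.1.2.2) (fun ω => ω.2) (fun ω => (ω.1.2.2, ω.2))
    fun ω ω' a b => Prod.ext a b
  have b6 := one P1 fun ω => ω.1.2.2
  have b7 := tup P1 fun ω => ω.2
  have b8 := P1.ent_mono (f := fun ω => (ω.1.1, ω.1.2.2, ω.2))
    (g := fun ω => ((ω.1.1, ω.1.2.2), ω.2)) fun ω ω' a => by
      simp only [Prod.mk.injEq] at a ⊢
      exact ⟨⟨a.1, a.2.1⟩, a.2.2⟩
  obtain ⟨P2, c0, c1, c2⟩ := copies_ex P1 (fun ω => (ω.1.2.2, ω.2)) (fun ω => ω.1.1) k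
    (g := log n - (k + 1) * D) (fun ω v => ∀ j, ({v, ω.2 j, ω.1.2.2} : Finset (Fin n)) ∈ E)
    (by linarith) fun ω ω' _ h c j => by
      have := (b2 ω' h).2 j
      simp only [Prod.mk.injEq] at c
      rwa [c.1, c.2] at this
  have c3 := c1 _ fun ω => (ω.1.2.2, ω.2)
  refine ⟨P2.map fun ω => ![ω.2, ω.1.2, fun _ => ω.1.1.2.2], fun T hT j => ?_, ?_, ?_,
    fun i c hi => ?_⟩
  · obtain ⟨ω, h, rfl⟩ := map_supp _ _ hT
    rw [image3]
    exact (c2 ω h).2 (j 0) (j 1)
  · rw [H_map]
    have := P2.ent_mono (f := fun ω => ![ω.2, ω.1.2, fun _ => ω.1.1.2.2])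
      (g := fun ω => ((ω.1.1.2.2, ω.1.2), ω.2)) fun ω ω' a =>
        Prod.ext (Prod.ext (congrFun (congrFun a 2) ⟨0, hk⟩) (congrFun a 1)) (congrFun a 0)
    linarith
  · rw [ent_map]
    have d1 : P2.ent (fun ω => ω.1.1.2.2) = P1.ent fun ω => ω.1.2.2 := by rw [← c0, ent_map]
    have d2 : P1.ent (fun ω => ω.1.2.2) = Pa.ent fun ω => ω.2.2 := by rw [← b0, ent_map]
    change _ ≤ P2.ent fun ω => ω.1.1.2.2
    linarith
  · rw [ent_map]
    have d1 := one P2 fun ω => ω.1.1.2.2
    have d2 := tup P2 fun ω => if i = 0 then ω.1.2 else ω.2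
    have d3 := P2.subadd (fun ω => ω.1.1.2.2) (fun ω => if i = 0 then ω.1.2 else ω.2)
      (fun ω => Function.update ![ω.2, ω.1.2, fun _ => ω.1.1.2.2] i c) fun ω ω' a b => by
        fin_cases i
        · simp only [Fin.zero_eta, if_true] at b
          funext i; fin_cases i <;> simp [a, b]
        · simp only [Fin.mk_one, one_ne_zero, if_false] at b
          funext i; fin_cases i <;> simp [a, b]
        · exact absurd rfl hi
    linarith

omit [Fintype W] in
theorem nb_card {G : Finset (Finset W)} {A : Finset W} {u : W} :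
    {w | w ∈ (A : Set W) ∧ Adj G u w}.ncard = (nb G A u).card := by
  rw [← Set.ncard_coe_finset]
  congr 1
  ext w
  simp [mem_nb]

omit [Fintype W] [DecidableEq W] in
theorem Adj.col_ne {G : Finset (Finset W)} {col : W → Fin 3}
    (hG : ∀ e ∈ G, e.card = 3 ∧ e.image col = univ) {u w : W} (h : Adj G u w) :
    col u ≠ col w := by
  obtain ⟨h1, e, he, hu, hw⟩ := h
  have : Set.InjOn col e := card_image_iff.mp (by rw [(hG e he).1, (hG e he).2]; simp)
  exact fun a => h1 (this hu hw a)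

omit [Fintype W] [DecidableEq W] in
theorem exists_adj {G : Finset (Finset W)} {col : W → Fin 3}
    (hG : ∀ e ∈ G, e.card = 3 ∧ e.image col = univ) {u : W} (h : ∃ e ∈ G, u ∈ e) {i : Fin 3}
    (hi : col u ≠ i) : ∃ w, col w = i ∧ Adj G u w := by
  obtain ⟨e, he, hu⟩ := h
  obtain ⟨w, hw, h1⟩ := mem_image.mp ((hG e he).2 ▸ mem_univ i : i ∈ e.image col)
  exact ⟨w, h1, fun a => hi (a ▸ h1), e, he, hu, hw⟩

theorem exp_eq {p : ℝ} (hp : 0 < p) (hn : 0 < n) (s : ℝ) (v : ℕ) :
    p ^ s * (n : ℝ) ^ v = exp (v * log n - s * (- log p)) := by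
  have : (0 : ℝ) < n := by exact_mod_cast hn
  rw [rpow_def_of_pos hp, ← exp_log (pow_pos this v), ← exp_add, log_pow]
  congr 1; ring

theorem thmA (E : Finset (Finset (Fin n))) (h3 : ∀ e ∈ E, e.card = 3) (hE : E.Nonempty) {p : ℝ}
    (hp : 0 < p) (hc : (E.card : ℝ) = p * (n : ℝ) ^ 3) (G : Finset (Finset W)) (col : W → Fin 3)
    (hG : ∀ e ∈ G, e.card = 3 ∧ e.image col = univ) {d : ℕ} (hd : 1 ≤ d)
    (hdeg : Degen G {w | col w ≠ 2} d) :
    p ^ (19 * (d : ℝ) * {q : W × W | col q.1 = 2 ∧ Adj G q.1 q.2}.ncard) *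
      (n : ℝ) ^ Fintype.card W ≤ copies (G : Set (Finset W)) E := by
  classical
  have hn : 0 < n := by
    obtain ⟨e, he⟩ := hE
    obtain ⟨x, -⟩ := card_pos.mp (by rw [h3 e he]; norm_num : 0 < e.card)
    exact x.pos
  have : Nonempty (Fin n) := ⟨⟨0, hn⟩⟩
  have hn' : (0 : ℝ) < n := by exact_mod_cast hn
  set D := - log p with hD
  obtain ⟨hD0, P0, p1, p2, p3, p4⟩ := apex E h3 hE (D := D)
    (by rw [hc, log_mul hp.ne' (by positivity), log_pow]; push_cast; linarith)
    (k := 2 * d) (by omega)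
  have hd' : (1 : ℝ) ≤ d := by exact_mod_cast hd
  set c : ℝ := 9 * d * D with hcc
  have hc0 : 0 ≤ c := by positivity
  set cost : W → ℝ := fun w => if ∃ e ∈ G, w ∈ e then
    (if col w = 2 then D + (nb G univ w).card * c else c) else 0 with hcost
  have hnb : ∀ A u, (∀ w ∈ nb G A u, col w ≠ 2) →
      ∑ w ∈ nb G A u, (log n - (log n - cost w)) = (nb G A u).card * c := by
    intro A u h
    rw [← nsmul_eq_mul, ← sum_const]
    refine sum_congr rfl fun w hw => ?_
    obtain ⟨e, he, -, hw'⟩ := (mem_nb.mp hw).2.2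
    simp only [hcost]
    rw [if_pos ⟨e, he, hw'⟩, if_neg (h w hw)]
    ring
  have h1 := core E G col hG (fun i => i = 2) (by omega) P0 p1 (fun w => log n - cost w)
    fun A hA => by
      by_cases h2 : ∃ u ∈ A, col u = 2
      · obtain ⟨u, hu, h2⟩ := h2
        refine ⟨u, hu, ?_⟩
        by_cases hi : ∃ e ∈ G, u ∈ e
        · refine Or.inr (Or.inl ⟨h2, fun i e => e.trans h2.symm, ?_⟩)
          rw [hnb A u fun w hw => h2 ▸ ((mem_nb.mp hw).2.col_ne hG).symm, h2]
          simp only [hcost]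
          rw [if_pos hi, if_pos h2]
          have : ((nb G A u).card : ℝ) ≤ (nb G univ u).card := by
            exact_mod_cast card_le_card fun w hw => mem_nb.mpr ⟨mem_univ _, (mem_nb.mp hw).2⟩
          have := mul_le_mul_of_nonneg_right this hc0
          linarith
        · refine Or.inl ⟨hi, ?_⟩
          simp only [hcost]
          rw [if_neg hi, sub_zero]
      · push Not at h2
        obtain ⟨u, hu, h4⟩ := hdeg A (fun w hw => h2 w hw) hA
        refine ⟨u, hu, ?_⟩
        by_cases hi : ∃ e ∈ G, u ∈ e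
        · refine Or.inr (Or.inr ⟨h2, ?_⟩)
          rw [hnb A u fun w hw => h2 w (mem_nb.mp hw).1]
          simp only [hcost]
          rw [if_pos hi, if_neg (h2 u hu)]
          rw [nb_card] at h4
          have h5 : ((nb G A u).card : ℝ) ≤ d := by exact_mod_cast h4
          have h6 := mul_le_mul_of_nonneg_right h5 hc0
          have h7 := p4 (col u) (fun _ => Classical.arbitrary _) (h2 u hu)
          have h8 : (2 * (d : ℝ) + 1) ^ 2 * D ≤ (3 * d) ^ 2 * D :=
            mul_le_mul_of_nonneg_right (pow_le_pow_left₀ (by positivity) (by linarith) 2) hD0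
          have h9 : (3 * (d : ℝ)) ^ 2 * D = d * c := by rw [hcc]; ring
          push_cast at p2 h7 ⊢
          linarith
        · refine Or.inl ⟨hi, ?_⟩
          simp only [hcost]
          rw [if_neg hi, sub_zero]
  refine le_trans ?_ h1
  rw [exp_eq hp hn, exp_le_exp, sum_sub_distrib, sum_const, card_univ, nsmul_eq_mul, ← hD]
  refine sub_le_sub_left ?_ _
  set M : Finset (W × W) := univ.filter fun q => col q.1 = 2 ∧ Adj G q.1 q.2 with hM
  have m1 : {q : W × W | col q.1 = 2 ∧ Adj G q.1 q.2}.ncard = M.card := by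
    rw [← Set.ncard_coe_finset]
    congr 1
    ext q
    simp [hM]
  have m2 : (M.card : ℝ) = ∑ w, if col w = 2 then ((nb G univ w).card : ℝ) else 0 := by
    rw [hM, card_filter, Fintype.sum_prod_type]
    push_cast
    refine sum_congr rfl fun w _ => ?_
    by_cases h : col w = 2
    · rw [if_pos h, show nb G univ w = univ.filter (Adj G w) by ext; simp [mem_nb], card_filter]
      simp [h]
    · simp [h]
  have m3 : (∑ w, if w ∈ M.image Prod.snd then (1 : ℝ) else 0) ≤ M.card := by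
    rw [sum_ite_mem, univ_inter, sum_const, nsmul_eq_mul, mul_one]
    exact_mod_cast card_image_le
  have m4 : ∑ w, cost w ≤ ∑ w, ((D + c) * (if col w = 2 then ((nb G univ w).card : ℝ) else 0) +
      c * if w ∈ M.image Prod.snd then (1 : ℝ) else 0) := by
    refine sum_le_sum fun w _ => ?_
    have e1 : 0 ≤ c * if w ∈ M.image Prod.snd then (1 : ℝ) else 0 := by positivity
    have e2 : 0 ≤ (D + c) * (if col w = 2 then ((nb G univ w).card : ℝ) else 0) := by positivity
    simp only [hcost]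
    by_cases hi : ∃ e ∈ G, w ∈ e
    · rw [if_pos hi]
      by_cases h : col w = 2
      · rw [if_pos h, if_pos h]
        obtain ⟨x, -, hx⟩ := exists_adj hG hi (i := 0) (by rw [h]; decide)
        have : (1 : ℝ) ≤ (nb G univ w).card := by
          exact_mod_cast card_pos.mpr ⟨x, mem_nb.mpr ⟨mem_univ _, hx⟩⟩
        have := mul_le_mul_of_nonneg_left this hD0
        linarith
      · obtain ⟨x, h1, hx⟩ := exists_adj hG hi h
        rw [if_neg h, if_pos (mem_image.mpr ⟨(x, w), by simp [hM, h1, hx.symm], rfl⟩)]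
        linarith
    · rw [if_neg hi]; linarith
  rw [sum_add_distrib, ← mul_sum, ← mul_sum, ← m2] at m4
  have m5 := mul_le_mul_of_nonneg_left m3 hc0
  have m6 : D * M.card ≤ d * D * M.card := by
    have := mul_le_mul_of_nonneg_right hd' (mul_nonneg hD0 (Nat.cast_nonneg M.card))
    linarith
  rw [m1]
  have m7 : c * M.card = 9 * (d * D * M.card) := by rw [hcc]; ring
  linarith

omit [Fintype W] in
theorem pairs_le {G : Finset (Finset W)} {col : W → Fin 3}
    (hG : ∀ e ∈ G, e.card = 3 ∧ e.image col = univ) (i j : Fin 3) (M : Finset (W × W))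
    (hM : ∀ q ∈ M, col q.1 = i ∧ col q.2 = j ∧ Adj G q.1 q.2) : M.card ≤ G.card := by
  have : ∀ q : W × W, ∃ e, q ∈ M → e ∈ G ∧ q.1 ∈ e ∧ q.2 ∈ e := fun q => by
    by_cases h : q ∈ M
    · obtain ⟨e, he⟩ := (hM q h).2.2.2
      exact ⟨e, fun _ => he⟩
    · exact ⟨∅, fun a => absurd a h⟩
  choose f hf using this
  refine card_le_card_of_injOn f (fun q h => (hf q h).1) fun q h q' h' a => ?_
  have he := hG _ (hf q h).1
  have hi : Set.InjOn col (f q) := card_image_iff.mp (by rw [he.1, he.2]; simp)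
  refine Prod.ext (hi (hf q h).2.1 (a ▸ (hf q' h').2.1) ?_) (hi (hf q h).2.2 (a ▸ (hf q' h').2.2) ?_)
  · rw [(hM q h).1, (hM q' h').1]
  · rw [(hM q h).2.1, (hM q' h').2.1]

theorem m_le {G : Finset (Finset W)} {col : W → Fin 3}
    (hG : ∀ e ∈ G, e.card = 3 ∧ e.image col = univ) :
    {q : W × W | col q.1 = 2 ∧ Adj G q.1 q.2}.ncard ≤ 2 * G.card := by
  classical
  have h0 := pairs_le hG 2 0 (univ.filter fun q => col q.1 = 2 ∧ col q.2 = 0 ∧ Adj G q.1 q.2)
    fun q h => (mem_filter.mp h).2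
  have h1 := pairs_le hG 2 1 (univ.filter fun q => col q.1 = 2 ∧ col q.2 = 1 ∧ Adj G q.1 q.2)
    fun q h => (mem_filter.mp h).2
  have h2 := card_union_le (univ.filter fun q : W × W => col q.1 = 2 ∧ col q.2 = 0 ∧ Adj G q.1 q.2)
    (univ.filter fun q : W × W => col q.1 = 2 ∧ col q.2 = 1 ∧ Adj G q.1 q.2)
  refine le_trans (le_trans (Set.ncard_le_ncard (fun q h => ?_) (Finset.finite_toSet _))
    (Set.ncard_coe_finset _).le) (h2.trans (by omega))
  have h3 := h.2.col_ne hG
  have h4 : ∀ a : Fin 3, 2 ≠ a → a = 0 ∨ a = 1 := by decide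
  rcases h4 _ (h.1 ▸ h3) with a | a <;> simp [h.1, h.2, a]

theorem degen_sqrt {G : Finset (Finset W)} {col : W → Fin 3}
    (hG : ∀ e ∈ G, e.card = 3 ∧ e.image col = univ) {d : ℕ} (hd : G.card.sqrt ≤ d) :
    Degen G {w | col w ≠ 2} d := by
  classical
  intro S hS ⟨u, hu⟩
  lift S to Finset W using S.toFinite
  by_contra hc
  push Not at hc
  simp only [nb_card] at hc
  have h4 : ∀ a b c : Fin 3, a ≠ 2 → b ≠ 2 → c ≠ 2 → a ≠ b → a ≠ c → b = c := by omega
  obtain ⟨w0, hw0⟩ := card_pos.mp ((Nat.zero_le _).trans_lt (hc u hu))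
  have hw : ∀ w ∈ nb G S u, col w = col w0 := fun w h =>
    h4 _ _ _ (hS hu) (hS (mem_nb.mp h).1) (hS (mem_nb.mp hw0).1) ((mem_nb.mp h).2.col_ne hG)
      ((mem_nb.mp hw0).2.col_ne hG)
  have h1 := pairs_le hG (col w0) (col u)
    (univ.filter fun q => q.1 ∈ nb G S u ∧ q.2 ∈ nb G S q.1) fun q h => by
      obtain ⟨a, b⟩ := (mem_filter.mp h).2
      exact ⟨hw _ a, h4 _ _ _ (hS (mem_nb.mp a).1) (hS (mem_nb.mp b).1) (hS hu)
        ((mem_nb.mp b).2.col_ne hG) ((mem_nb.mp a).2.col_ne hG).symm, (mem_nb.mp b).2⟩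
  have h2 : (univ.filter fun q : W × W => q.1 ∈ nb G S u ∧ q.2 ∈ nb G S q.1).card =
      ∑ w ∈ nb G S u, (nb G S w).card := by
    rw [card_eq_sum_card_fiberwise (f := Prod.fst) (t := nb G S u)
      fun q h => (mem_filter.mp h).2.1]
    refine sum_congr rfl fun w hw => ?_
    refine (card_bij (fun x _ => (w, x)) (fun x hx => ?_) (fun _ _ _ _ a => (Prod.ext_iff.mp a).2)
      fun q hq => ?_).symm
    · simp [hw, hx]
    · simp only [mem_filter, mem_univ, true_and] at hq
      exact ⟨q.2, hq.2 ▸ hq.1.2, Prod.ext hq.2.symm rfl⟩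
  have h3 : (nb G S u).card * (d + 1) ≤ ∑ w ∈ nb G S u, (nb G S w).card := by
    rw [← smul_eq_mul]
    exact card_nsmul_le_sum _ _ _ fun w h => hc w (mem_nb.mp h).1
  have h5 := Nat.mul_le_mul_right (d + 1) (Nat.succ_le_of_lt (hc u hu))
  have h6 := Nat.lt_succ_sqrt G.card
  have h7 := Nat.mul_le_mul (Nat.succ_le_succ hd) (Nat.succ_le_succ hd)
  simp only [Nat.succ_eq_add_one] at h5 h6 h7
  omega

theorem p_le_one {E : Finset (Finset (Fin n))} (h3 : ∀ e ∈ E, e.card = 3) (hE : E.Nonempty)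
    {p : ℝ} (hc : (E.card : ℝ) = p * (n : ℝ) ^ 3) : p ≤ 1 := by
  have h1 : E.card ≤ n ^ 3 := by
    refine (card_le_card fun e he => mem_powersetCard_univ.mpr (h3 e he)).trans ?_
    rw [card_powersetCard, card_univ, Fintype.card_fin]
    exact Nat.choose_le_pow n 3
  have h2 : (0 : ℝ) < (n : ℝ) ^ 3 := by exact_mod_cast hE.card_pos.trans_le h1
  have h4 : p * (n : ℝ) ^ 3 ≤ 1 * (n : ℝ) ^ 3 := by
    rw [← hc, one_mul]; exact_mod_cast h1
  exact le_of_mul_le_mul_right h4 h2

theorem corA (E : Finset (Finset (Fin n))) (h3 : ∀ e ∈ E, e.card = 3) (hE : E.Nonempty) {p : ℝ}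
    (hp : 0 < p) (hc : (E.card : ℝ) = p * (n : ℝ) ^ 3) (G : Finset (Finset W)) (col : W → Fin 3)
    (hG : ∀ e ∈ G, e.card = 3 ∧ e.image col = univ) :
    p ^ (38 * (G.card : ℝ) ^ ((3 : ℝ) / 2)) * (n : ℝ) ^ Fintype.card W ≤
      copies (G : Set (Finset W)) E := by
  refine le_trans (mul_le_mul_of_nonneg_right (rpow_le_rpow_of_exponent_ge hp (p_le_one h3 hE hc)
    ?_) (by positivity)) (thmA E h3 hE hp hc G col hG (le_max_left 1 G.card.sqrt)
      (degen_sqrt hG (le_max_right _ _)))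
  have h1 : ({q : W × W | col q.1 = 2 ∧ Adj G q.1 q.2}.ncard : ℝ) ≤ 2 * G.card := by
    exact_mod_cast m_le hG
  have h2 : ((max 1 G.card.sqrt : ℕ) : ℝ) * G.card ≤ (G.card : ℝ) ^ ((3 : ℝ) / 2) := by
    rcases G.card.eq_zero_or_pos with h | h
    · rw [h]; simp
    · rw [max_eq_right (Nat.sqrt_pos.mpr h), show (3 : ℝ) / 2 = 1 / 2 + 1 by norm_num,
        rpow_add_one (by exact_mod_cast h.ne'), ← sqrt_eq_rpow]
      exact mul_le_mul_of_nonneg_right Real.nat_sqrt_le_real_sqrt (Nat.cast_nonneg _)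
  have h4 := mul_le_mul_of_nonneg_left h1
    (Nat.cast_nonneg (max 1 G.card.sqrt) : (0 : ℝ) ≤ (max 1 G.card.sqrt : ℕ))
  linarith

end Pool.Agent.Work.MP_af588c_co.Dg
end
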